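import Pool.Agent.helper6.EU.SpecT
set_option autoImplicit false
open Finset
namespace Pool.Agent.EU

open Pool.Agent.FI Pool.Agent.FJ

private lemma TRT_iff (q x y : ℕ) (h : x ≡ y [MOD q]) : (q : ℤ) ∣ (x : ℤ) ^ 2 - 8 ↔ (q : ℤ) ∣ (y : ℤ) ^ 2 - 8 := by
  have h1 : ((x : ℤ)) ≡ (y : ℤ) [ZMOD q] := (Int.natCast_modEq_iff).mpr h
  have h2 : ((x : ℤ)) ^ 2 - 8 ≡ (y : ℤ) ^ 2 - 8 [ZMOD q] := (h1.pow 2).sub_right 8
  rw [Int.dvd_iff_emod_eq_zero, Int.dvd_iff_emod_eq_zero]
  rw [h2]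

theorem TRT (hROO : ROO_stmt) : TRT_stmt := by
  refine ⟨?_, ?_, ?_⟩
  · intro a b ha hb hab
    unfold rt
    rw [← card_product]
    refine card_bij' (fun ν _ => (ν % a, ν % b)) (fun p _ => (Nat.chineseRemainder hab p.1 p.2 : ℕ)) ?_ ?_ ?_ ?_
    · intro ν hν
      rw [mem_filter, mem_range] at hν
      obtain ⟨h1, h2⟩ := hν
      rw [mem_product, mem_filter, mem_filter, mem_range, mem_range]
      have hcast : ((a * b : ℕ) : ℤ) = (a : ℤ) * (b : ℤ) := by push_cast; ring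
      rw [hcast] at h2
      refine ⟨⟨Nat.mod_lt _ ha, ?_⟩, ⟨Nat.mod_lt _ hb, ?_⟩⟩
      · exact (TRT_iff a (ν % a) ν (Nat.mod_modEq ν a)).mpr (dvd_trans (dvd_mul_right _ _) h2)
      · exact (TRT_iff b (ν % b) ν (Nat.mod_modEq ν b)).mpr (dvd_trans (dvd_mul_left _ _) h2)
    · intro p hp
      rw [mem_product, mem_filter, mem_filter, mem_range, mem_range] at hp
      obtain ⟨⟨h1, h2⟩, ⟨h3, h4⟩⟩ := hp
      rw [mem_filter, mem_range]
      refine ⟨Nat.chineseRemainder_lt_mul hab _ _ (by omega) (by omega), ?_⟩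
      have h5 := (Nat.chineseRemainder hab p.1 p.2).2
      have hcast : ((a * b : ℕ) : ℤ) = (a : ℤ) * (b : ℤ) := by push_cast; ring
      rw [hcast]
      refine IsCoprime.mul_dvd (Nat.isCoprime_iff_coprime.mpr hab) ?_ ?_
      · exact (TRT_iff a _ _ h5.1).mpr h2
      · exact (TRT_iff b _ _ h5.2).mpr h4
    · intro ν hν
      rw [mem_filter, mem_range] at hν
      have h1 : ν ≡ ν % a [MOD a] := (Nat.mod_modEq ν a).symm
      have h2 : ν ≡ ν % b [MOD b] := (Nat.mod_modEq ν b).symm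
      have h3 := Nat.chineseRemainder_modEq_unique hab h1 h2
      have h4 := Nat.chineseRemainder_lt_mul hab (ν % a) (ν % b) (by omega) (by omega)
      exact (Nat.ModEq.eq_of_lt_of_lt h3 hν.1 h4).symm
    · intro p hp
      rw [mem_product, mem_filter, mem_filter, mem_range, mem_range] at hp
      obtain ⟨⟨h1, h2⟩, ⟨h3, h4⟩⟩ := hp
      have h5 := (Nat.chineseRemainder hab p.1 p.2).2
      have h6 : (Nat.chineseRemainder hab p.1 p.2 : ℕ) % a = p.1 := by
        have := h5.1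
        unfold Nat.ModEq at this
        rw [this, Nat.mod_eq_of_lt h1]
      have h7 : (Nat.chineseRemainder hab p.1 p.2 : ℕ) % b = p.2 := by
        have := h5.2
        unfold Nat.ModEq at this
        rw [this, Nat.mod_eq_of_lt h3]
      exact Prod.ext h6 h7
  · unfold rt
    simp
  · intro p hp h2
    have h := hROO p (hp.odd_of_ne_two h2)
    rwa [hp.divisors, card_pair hp.one_lt.ne] at h

end Pool.Agent.EU
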